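import Pool.Agent.Lib.MP_b1ea0f_al.BridgeW

/-!
# MP_b1ea0f_al: the symmetrising trace conjecture for all exceptional groups of rank two

The conjecture of Broué, Malle and Michel (Q1) for the exceptional complex reflection groups
`G4, G5, …, G22`, with the braid groups given by the presentations of Broué, Malle and Rouquier.
-/

/-- For each of the exceptional groups `W = G4, …, G22`: the generic Hecke algebra `H(W)` is a finitely
generated projective `R(W)`-module and there is a linear form `τ : H(W) → R(W)` with (1) `τ(hh') = τ(h'h)`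
and the form `(h,h') ↦ τ(hh')` perfect, (2) `τ` specialises to the canonical trace of the group algebra,
(3) `τ(T_{b⁻¹})^* = τ(T_{bπ}) / τ(T_π)` for all `b ∈ B(W)`, `τ(T_π)` a unit. -/
theorem Pool.Agent.Results.MP_b1ea0f_al.RankTwoGroups.result :
    ∀ D ∈ [SymTrace.G4, SymTrace.G5, SymTrace.G6, SymTrace.G7, SymTrace.G8, SymTrace.G9,
      SymTrace.G10, SymTrace.G11, SymTrace.G12, SymTrace.G13, SymTrace.G14, SymTrace.G15,
      SymTrace.G16, SymTrace.G17, SymTrace.G18, SymTrace.G19, SymTrace.G20, SymTrace.G21,
      SymTrace.G22], SymTrace.Data.BMM D :=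
  SymTrace.main
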